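import Pool.Agent.Lib.MP_2f3d14_co.Gessel

/-!
# Coefficients of fundamental quasisymmetric functions, and a criterion for symmetry
-/

namespace Pool.Agent.Lib.MP_2f3d14_co

open Finset

/-- partial sums of an exponent vector -/
def psum (m : ℕ →₀ ℕ) (v : ℕ) : ℕ := ∑ u ∈ range v, m u

theorem psum_mono (m : ℕ →₀ ℕ) : Monotone (psum m) := by
  intro a b h
  exact Finset.sum_le_sum_of_subset (Finset.range_mono h)

/-- the number of terms less than `v` in a sequence with content `m` -/
theorem card_lt {n : ℕ} {t : Fin n → ℕ} {m : ℕ →₀ ℕ} (h : ∑ j, Finsupp.single (t j) 1 = m)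
    (v : ℕ) : (univ.filter (fun j => t j < v)).card = psum m v := by
  unfold psum
  rw [← h, Finset.card_filter]
  have : ∀ u, (∑ j, (Finsupp.single (t j) 1 : ℕ →₀ ℕ)) u = ∑ j, if t j = u then 1 else 0 := by
    intro u
    rw [Finsupp.finsetSum_apply]
    apply Finset.sum_congr rfl
    intro j _
    rw [Finsupp.single_apply]
  simp_rw [this]
  rw [Finset.sum_comm]
  apply Finset.sum_congr rfl
  intro j _
  rw [Finset.sum_ite_eq]
  simp

/-- A lower set of positions. -/
theorem lt_card_iff {n : ℕ} (π : Equiv.Perm (Fin n)) (P : Fin n → Prop) [DecidablePred P]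
    (h : ∀ l l', P l → ¬ P l' → π l < π l') (k : Fin n) :
    (π k : ℕ) < (univ.filter P).card ↔ P k := by
  constructor
  · intro h1
    by_contra h2
    have h3 : (univ.filter P).card ≤ (Finset.Iio (π k)).card := by
      apply Finset.card_le_card_of_injOn π
      · intro l hl
        rw [mem_coe, mem_filter] at hl
        rw [mem_coe, mem_Iio]
        exact h l k hl.2 h2
      · exact π.injective.injOn
    rw [Fin.card_Iio] at h3
    omega
  · intro h1
    have h3 : (Finset.Iic (π k)).card ≤ (univ.filter P).card := by
      apply Finset.card_le_card_of_injOn π.symm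
      · intro l hl
        rw [mem_coe, mem_Iic] at hl
        rw [mem_coe, mem_filter]
        refine ⟨mem_univ _, ?_⟩
        by_contra h2
        have := h k (π.symm l) h1 h2
        rw [Equiv.apply_symm_apply] at this
        exact absurd hl (not_le.2 this)
      · exact π.symm.injective.injOn
    rw [Fin.card_Iic] at h3
    omega

theorem lt_iff_of_monotone {n : ℕ} {t : Fin n → ℕ} {m : ℕ →₀ ℕ}
    (h : ∑ j, Finsupp.single (t j) 1 = m) (ht : Monotone t) (j : Fin n) (v : ℕ) :
    t j < v ↔ (j : ℕ) < psum m v := by
  rw [← card_lt h v]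
  have := lt_card_iff (Equiv.refl (Fin n)) (fun j => t j < v) (by
    intro l l' h1 h2
    by_contra h3
    have : t l' ≤ t l := ht (not_lt.1 h3)
    exact h2 (this.trans_lt h1)) j
  exact this.symm

theorem monotone_unique {n : ℕ} {t t' : Fin n → ℕ} {m : ℕ →₀ ℕ}
    (h : ∑ j, Finsupp.single (t j) 1 = m) (h' : ∑ j, Finsupp.single (t' j) 1 = m)
    (ht : Monotone t) (ht' : Monotone t') : t = t' := by
  funext j
  have h1 := fun v => (lt_iff_of_monotone h ht j v).trans (lt_iff_of_monotone h' ht' j v).symm
  apply le_antisymm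
  · by_contra hcon
    push Not at hcon
    exact absurd ((h1 (t j)).2 hcon) (lt_irrefl _)
  · by_contra hcon
    push Not at hcon
    exact absurd ((h1 (t' j)).1 hcon) (lt_irrefl _)

theorem exists_content {n : ℕ} {m : ℕ →₀ ℕ} (hm : m.degree = n) :
    ∃ t : Fin n → ℕ, ∑ j, Finsupp.single (t j) 1 = m := by
  induction n generalizing m with
  | zero =>
    rw [Finsupp.degree_eq_zero_iff] at hm
    exact ⟨fun j => 0, by simp [hm]⟩
  | succ n ih =>
    have hm0 : m ≠ 0 := by
      rintro rfl
      simp at hm
    obtain ⟨v, hv⟩ := Finsupp.ne_iff.1 hm0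
    have hle : Finsupp.single v 1 ≤ m := by
      rw [Finsupp.single_le_iff]
      have : m v ≠ 0 := hv
      omega
    have hsplit : m = Finsupp.single v 1 + (m - Finsupp.single v 1) :=
      (add_tsub_cancel_of_le hle).symm
    obtain ⟨t, ht⟩ := @ih (m - Finsupp.single v 1) (by
      have h1 := congrArg Finsupp.degree hsplit
      rw [map_add, Finsupp.degree_single, hm] at h1
      omega)
    refine ⟨Fin.cons v t, ?_⟩
    rw [Fin.sum_univ_succ, Fin.cons_zero]
    simp only [Fin.cons_succ]
    rw [ht]
    exact hsplit.symm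

theorem degree_of_content {n : ℕ} {t : Fin n → ℕ} {m : ℕ →₀ ℕ}
    (h : ∑ j, Finsupp.single (t j) 1 = m) : m.degree = n := by
  rw [← h, map_sum]
  simp [Finsupp.degree_single]

/-- Existence of the monotone sequence with given content. -/
theorem exists_monotone {n : ℕ} {m : ℕ →₀ ℕ} (hm : m.degree = n) :
    ∃ t : Fin n → ℕ, ∑ j, Finsupp.single (t j) 1 = m ∧ Monotone t := by
  obtain ⟨t, ht⟩ := exists_content hm
  refine ⟨t ∘ Tuple.sort t, ?_, Tuple.monotone_sort t⟩
  rw [← ht]
  exact Equiv.sum_comp (Tuple.sort t) (fun j => (Finsupp.single (t j) 1 : ℕ →₀ ℕ))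

theorem psum_le_degree (m : ℕ →₀ ℕ) (v : ℕ) : psum m v ≤ m.degree := by
  obtain ⟨t, ht⟩ := exists_content (m := m) rfl
  rw [← card_lt ht v]
  exact (Finset.card_le_univ _).trans (by simp)

/-- strictness at the positions in `J ⊆ {1, ..., n-1}` in terms of partial sums -/
theorem strictAt_iff {n : ℕ} {t : Fin n → ℕ} {m : ℕ →₀ ℕ}
    (h : ∑ j, Finsupp.single (t j) 1 = m) (ht : Monotone t) {J : Finset ℕ}
    (hJ : ∀ p ∈ J, 1 ≤ p ∧ p < n) :
    StrictAt J t ↔ ∀ p ∈ J, ∃ v, psum m v = p := by
  constructor
  · intro h1 p hp
    obtain ⟨hp1, hp2⟩ := hJ p hp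
    have h2 := h1 ⟨p - 1, by omega⟩ ⟨p, hp2⟩ (by simp only; omega) hp
    have h3 := (lt_iff_of_monotone h ht ⟨p - 1, by omega⟩ _).1 h2
    have h4 := (lt_iff_of_monotone h ht ⟨p, hp2⟩ (t ⟨p, hp2⟩)).not.1 (lt_irrefl _)
    refine ⟨t ⟨p, hp2⟩, ?_⟩
    simp only at h3 h4
    omega
  · intro h1 j k hjk hk
    obtain ⟨v, hv⟩ := h1 k hk
    have h3 := (lt_iff_of_monotone h ht j v).2 (by omega)
    have h4 := (lt_iff_of_monotone h ht k v).not.2 (by omega)
    omega

open Classical in
/-- The coefficients of a fundamental quasisymmetric function. -/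
theorem fund_coeff {n : ℕ} {J : Finset ℕ} (hJ : ∀ p ∈ J, 1 ≤ p ∧ p < n) (m : ℕ →₀ ℕ) :
    fund n J m = if m.degree = n ∧ ∀ p ∈ J, ∃ v, psum m v = p then 1 else 0 := by
  rw [fund_apply]
  split_ifs with h
  · obtain ⟨t, ht, hmono⟩ := exists_monotone h.1
    have : (U n m).filter (fun i => Monotone i ∧ StrictAt J i) = {t} := by
      ext i
      rw [mem_filter, mem_U, mem_singleton]
      constructor
      · rintro ⟨h1, h2, h3⟩
        exact monotone_unique h1 ht h2 hmono
      · rintro rfl
        exact ⟨ht, hmono, (strictAt_iff ht hmono hJ).2 h.2⟩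
    rw [this, Finset.card_singleton]
    rfl
  · have : (U n m).filter (fun i => Monotone i ∧ StrictAt J i) = ∅ := by
      rw [Finset.filter_eq_empty_iff]
      intro i hi h1
      rw [mem_U] at hi
      apply h
      exact ⟨degree_of_content hi, (strictAt_iff hi h1.1 hJ).1 h1.2⟩
    rw [this, Finset.card_empty]
    rfl

/-- The partial sums of a list. -/
def psumsList (c : List ℕ) : List ℕ := (List.range (c.length + 1)).map fun k => (c.take k).sum

/-- The composition of an exponent vector. -/
theorem exists_comp (m : ℕ →₀ ℕ) : ∃ c : List ℕ, (∀ x ∈ c, 0 < x) ∧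
    (c : Multiset ℕ) = m.support.val.map m ∧ c.sum = m.degree ∧
    ∀ p, (∃ v, psum m v = p) ↔ p ∈ psumsList c := by
  induction m using Finsupp.induction_on_max with
  | zero =>
    refine ⟨[], by simp, by simp, by simp, ?_⟩
    intro p
    simp [psum, psumsList, eq_comm]
  | single_add a b f ha hb ih =>
    obtain ⟨c, h1, h2, h3, h4⟩ := ih
    have hfa : a ∉ f.support := fun h => lt_irrefl _ (ha a h)
    have hfa0 : f a = 0 := by simpa using hfa
    refine ⟨c ++ [b], ?_, ?_, ?_, ?_⟩
    · intro x hx
      rw [List.mem_append, List.mem_singleton] at hx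
      rcases hx with hx | hx
      · exact h1 x hx
      · rw [hx]; exact Nat.pos_of_ne_zero hb
    · have hsupp : (Finsupp.single a b + f).support = insert a f.support := by
        rw [Finsupp.support_add_eq]
        · rw [Finsupp.support_single_ne_zero a hb]; rfl
        · rw [Finsupp.support_single_ne_zero a hb]
          rw [Finset.disjoint_singleton_left]; exact hfa
      rw [hsupp, Finset.insert_val_of_notMem hfa, Multiset.map_cons]
      have e1 : (Finsupp.single a b + f) a = b := by
        simp [hfa0]
      have e2 : f.support.val.map (Finsupp.single a b + f : ℕ →₀ ℕ) = f.support.val.map f := by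
        apply Multiset.map_congr rfl
        intro x hx
        have : x ≠ a := fun h => hfa (by rw [← h]; exact hx)
        simp [this.symm]
      rw [e1, e2, ← h2, ← Multiset.coe_add, add_comm]
      rfl
    · rw [List.sum_append, h3, map_add, Finsupp.degree_single, List.sum_singleton, add_comm]
    · intro p
      have hps : ∀ v, psum (Finsupp.single a b + f) v = psum f v + if a < v then b else 0 := by
        intro v
        unfold psum
        simp only [Finsupp.add_apply, Finset.sum_add_distrib, Finsupp.single_apply]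
        rw [add_comm, Finset.sum_ite_eq]
        simp
      have hfull : ∀ v, a ≤ v → psum f v = f.degree := by
        intro v hv
        unfold psum
        rw [Finsupp.degree_apply]
        symm
        apply Finset.sum_subset
        · intro x hx
          rw [mem_range]
          exact (ha x hx).trans_le hv
        · intro x _ hx
          simpa using hx
      have hlist : psumsList (c ++ [b]) = psumsList c ++ [c.sum + b] := by
        unfold psumsList
        rw [List.length_append, List.length_singleton, List.range_succ, List.map_append]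
        congr 1
        · apply List.map_congr_left
          intro k hk
          rw [List.mem_range] at hk
          rw [List.take_append_of_le_length (by omega)]
        · rw [List.map_singleton, List.take_of_length_le (by simp), List.sum_append,
            List.sum_singleton]
      rw [hlist, List.mem_append, List.mem_singleton, ← h4, h3]
      constructor
      · rintro ⟨v, hv⟩
        rw [hps] at hv
        split_ifs at hv with h5
        · right; rw [← hv, hfull v h5.le]
        · left; exact ⟨v, by simpa using hv⟩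
      · rintro (⟨v, hv⟩ | hv)
        · rcases le_or_gt v a with h5 | h5
          · refine ⟨v, ?_⟩
            rw [hps, if_neg (by omega), hv, add_zero]
          · refine ⟨a, ?_⟩
            rw [hps, if_neg (by omega), add_zero, hfull a le_rfl, ← hv, hfull v h5.le]
        · refine ⟨a + 1, ?_⟩
          rw [hps, if_pos (by omega), hfull _ (by omega), hv]

/-- The coefficients of a sum of fundamental quasisymmetric functions. -/
theorem sum_coeff {n : ℕ} (Js : List (Finset ℕ)) (hJ : ∀ J ∈ Js, ∀ p ∈ J, 1 ≤ p ∧ p < n)
    (m : ℕ →₀ ℕ) (c : List ℕ) (hc : ∀ p, (∃ v, psum m v = p) ↔ p ∈ psumsList c) :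
    (Js.map (fund n)).sum m = if m.degree = n then
      ((Js.countP (fun J => ∀ p ∈ J, p ∈ psumsList c) : ℕ) : ℤ) else 0 := by
  classical
  induction Js with
  | nil => simp; rfl
  | cons J Js ih =>
    rw [List.map_cons, List.sum_cons]
    show fund n J m + (Js.map (fund n)).sum m = _
    rw [ih (fun J' hJ' => hJ J' (List.mem_cons_of_mem _ hJ')),
      fund_coeff (hJ J List.mem_cons_self), List.countP_cons]
    simp only [hc]
    by_cases h1 : m.degree = n
    · simp only [h1, true_and, if_true]
      by_cases h2 : ∀ p ∈ J, p ∈ psumsList c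
      · simp [h2, add_comm]
      · simp [h2]
    · simp [h1]

/-- A sum of fundamental quasisymmetric functions, over a list of subsets of `{1, ..., n-1}`, is
symmetric if the number of subsets contained in the set of partial sums of a composition of `n`
does not depend on the order of the parts. -/
theorem isSymm_of {n : ℕ} (Js : List (Finset ℕ)) (hJ : ∀ J ∈ Js, ∀ p ∈ J, 1 ≤ p ∧ p < n)
    (h : ∀ c c' : List ℕ, (∀ x ∈ c, 0 < x) → c.sum = n → c.Perm c' →
      Js.countP (fun J => ∀ p ∈ J, p ∈ psumsList c) =
        Js.countP (fun J => ∀ p ∈ J, p ∈ psumsList c')) :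
    IsSymm (Js.map (fund n)).sum := by
  intro σ m
  show (Js.map (fund n)).sum (m.mapDomain σ) = (Js.map (fund n)).sum m
  obtain ⟨c, h1, h2, h3, h4⟩ := exists_comp m
  obtain ⟨c', h1', h2', h3', h4'⟩ := exists_comp (m.mapDomain σ)
  rw [sum_coeff Js hJ _ _ h4, sum_coeff Js hJ _ _ h4']
  have hperm : c.Perm c' := by
    rw [← Multiset.coe_eq_coe, h2, h2', Finsupp.mapDomain_support_of_injective σ.injective]
    rw [Finset.image_val_of_injOn σ.injective.injOn, Multiset.map_map]
    apply Multiset.map_congr rfl
    intro x _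
    rw [Function.comp_apply, Finsupp.mapDomain_apply σ.injective]
  have hdeg : (m.mapDomain σ).degree = m.degree := by rw [← h3, ← h3', hperm.sum_eq]
  rw [hdeg]
  split_ifs with h5
  · rw [h c c' h1 (h3.trans h5) hperm]
  · rfl

end Pool.Agent.Lib.MP_2f3d14_co
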