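import Mathlib

/-!
# Schur-positivity of permutation grid classes: definitions

Variables are `x_0, x_1, x_2, ...`; a formal power series in them with integer coefficients is an
element of `MvPowerSeries ℕ ℤ`, that is, a function from exponent vectors `m : ℕ →₀ ℕ` to `ℤ`.
-/

namespace Pool.Agent.Lib.MP_2f3d14_co

/-- Gessel's fundamental quasisymmetric function `F_{n,J}`, `J ⊆ {1, ..., n-1}`: the sum of
`x_{i_1} ⋯ x_{i_n}` over all `i_1 ≤ ⋯ ≤ i_n` with `i_p < i_{p+1}` for all `p ∈ J`. Its coefficient
at the monomial `x^m` is the number of such sequences with product `x^m`. (Positions are counted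
from zero: the `p`-th term is indexed by `j` with `j + 1 = p`, the next one by `k = p`.) -/
noncomputable def fund (n : ℕ) (J : Finset ℕ) : MvPowerSeries ℕ ℤ := fun m =>
  (Nat.card {i : Fin n → ℕ // Monotone i ∧
    (∀ j k : Fin n, (k : ℕ) = j + 1 → (k : ℕ) ∈ J → i j < i k) ∧
    ∑ j, Finsupp.single (i j) 1 = m} : ℤ)

/-- The descent set `{p ∈ {1, ..., n-1} : π(p) > π(p+1)}` of a permutation. -/
def desSet {n : ℕ} (π : Equiv.Perm (Fin n)) : Finset ℕ :=
  (Finset.range n).filter (fun p => ∃ j k : Fin n, (k : ℕ) = p ∧ (k : ℕ) = j + 1 ∧ π k < π j)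

/-- `Q(A)`, the sum of the fundamental quasisymmetric functions of the descent sets of the
elements of `A`. -/
noncomputable def Q {n : ℕ} (A : Finset (Equiv.Perm (Fin n))) : MvPowerSeries ℕ ℤ :=
  ∑ π ∈ A, fund n (desSet π)

/-- The Schur function `s_μ`: the sum over all semistandard Young tableaux of shape `μ` of the
product of the variables indexed by the entries. -/
noncomputable def schurFn (μ : YoungDiagram) : MvPowerSeries ℕ ℤ := fun m =>
  (Nat.card {T : SemistandardYoungTableau μ //
    ∑ c ∈ μ.cells, Finsupp.single (T c.1 c.2) 1 = m} : ℤ)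

/-- A power series is symmetric if permuting the variables does not change it. -/
def IsSymm (f : MvPowerSeries ℕ ℤ) : Prop :=
  ∀ (σ : Equiv.Perm ℕ) (m : ℕ →₀ ℕ),
    MvPowerSeries.coeff (m.mapDomain σ) f = MvPowerSeries.coeff m f

/-- Schur-positivity: `f` is symmetric and is a combination of Schur functions with nonnegative
integer coefficients. -/
def SchurPositive (f : MvPowerSeries ℕ ℤ) : Prop :=
  IsSymm f ∧ ∃ c : YoungDiagram →₀ ℕ, f = c.sum fun μ k => k • schurFn μ

/-- The permutation `π` lies in the grid class of the matrix `M`, whose rows are indexed from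
bottom to top and whose columns from left to right: there are vertical and horizontal grid lines
`0 = a_0 ≤ ⋯ ≤ a_c = n` and `0 = b_0 ≤ ⋯ ≤ b_r = n` such that for each cell `(i,j)` the points
`(k, π(k))` in the cell form an increasing sequence if `M i j = 1`, a decreasing sequence if
`M i j = -1`, and there are no points if `M i j = 0`. (Positions and values of `π` are counted from
zero, so that the `j`-th column consists of the `k` with `a_j ≤ k < a_{j+1}`.) -/
def InGrid {r c n : ℕ} (M : Matrix (Fin r) (Fin c) SignType) (π : Equiv.Perm (Fin n)) : Prop :=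
  ∃ (a : Fin (c + 1) → ℕ) (b : Fin (r + 1) → ℕ),
    Monotone a ∧ a 0 = 0 ∧ a (Fin.last c) = n ∧ Monotone b ∧ b 0 = 0 ∧ b (Fin.last r) = n ∧
    ∀ (i : Fin r) (j : Fin c),
      (M i j = 0 → {k : Fin n | a j.castSucc ≤ k ∧ (k : ℕ) < a j.succ ∧
        b i.castSucc ≤ π k ∧ (π k : ℕ) < b i.succ} = ∅) ∧
      (M i j = 1 → StrictMonoOn π {k : Fin n | a j.castSucc ≤ k ∧ (k : ℕ) < a j.succ ∧
        b i.castSucc ≤ π k ∧ (π k : ℕ) < b i.succ}) ∧
      (M i j = -1 → StrictAntiOn π {k : Fin n | a j.castSucc ≤ k ∧ (k : ℕ) < a j.succ ∧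
        b i.castSucc ≤ π k ∧ (π k : ℕ) < b i.succ})

open Classical in
/-- `G_n`, the set of permutations of size `n` in the grid class of `M`. -/
noncomputable def gridClass {r c : ℕ} (M : Matrix (Fin r) (Fin c) SignType) (n : ℕ) :
    Finset (Equiv.Perm (Fin n)) :=
  Finset.univ.filter (fun π => InGrid M π)

end Pool.Agent.Lib.MP_2f3d14_co
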