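import Pool.Agent.Lib.MP_2f3d14_co.Defs

/-!
# The expansion of Schur functions in fundamental quasisymmetric functions
-/

namespace Pool.Agent.Lib.MP_2f3d14_co

open Finset

/-- sequences with prescribed content: all values lie in the support -/
theorem mem_support_of_content {n : ℕ} {t : Fin n → ℕ} {m : ℕ →₀ ℕ}
    (h : ∑ j, Finsupp.single (t j) 1 = m) (j : Fin n) : t j ∈ m.support := by
  rw [Finsupp.mem_support_iff, ← h, Finsupp.finsetSum_apply]
  have : 0 < ∑ x, (Finsupp.single (t x) 1 : ℕ →₀ ℕ) (t j) := by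
    apply Finset.sum_pos'
    · intro i _; exact Nat.zero_le _
    · exact ⟨j, mem_univ _, by simp⟩
  omega

/-- the finite set of sequences with content `m` -/
noncomputable def U (n : ℕ) (m : ℕ →₀ ℕ) : Finset (Fin n → ℕ) :=
  (Fintype.piFinset (fun _ => m.support)).filter (fun t => ∑ j, Finsupp.single (t j) 1 = m)

theorem mem_U {n : ℕ} {t : Fin n → ℕ} {m : ℕ →₀ ℕ} :
    t ∈ U n m ↔ ∑ j, Finsupp.single (t j) 1 = m := by
  rw [U, mem_filter, Fintype.mem_piFinset]
  exact ⟨fun h => h.2, fun h => ⟨mem_support_of_content h, h⟩⟩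

open Classical in
theorem natCard_eq {n : ℕ} (m : ℕ →₀ ℕ) (P : (Fin n → ℕ) → Prop) :
    Nat.card {t : Fin n → ℕ // P t ∧ ∑ j, Finsupp.single (t j) 1 = m} =
      ((U n m).filter P).card := by
  apply Nat.subtype_card
  intro t
  rw [mem_filter, mem_U]
  tauto

/-- the strictness condition at the positions in `J` -/
def StrictAt {n : ℕ} (J : Finset ℕ) (i : Fin n → ℕ) : Prop :=
  ∀ j k : Fin n, (k : ℕ) = j + 1 → (k : ℕ) ∈ J → i j < i k

open Classical in
theorem fund_apply (n : ℕ) (J : Finset ℕ) (m : ℕ →₀ ℕ) :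
    fund n J m = (((U n m).filter (fun i => Monotone i ∧ StrictAt J i)).card : ℤ) := by
  unfold fund
  congr 1
  apply Nat.subtype_card
  intro i
  rw [mem_filter, mem_U]
  unfold StrictAt
  tauto

/-- Conditions for a filling, given as a sequence along an enumeration `e` of the cells, to be
semistandard. -/
def SS {n : ℕ} (e : Fin n → ℕ × ℕ) (t : Fin n → ℕ) : Prop :=
  (∀ j k, (e j).1 = (e k).1 → (e j).2 < (e k).2 → t j ≤ t k) ∧
  (∀ j k, (e j).2 = (e k).2 → (e j).1 < (e k).1 → t j < t k)

open Classical in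
theorem schur_apply (μ : YoungDiagram) {n : ℕ} (e : Fin n → ℕ × ℕ) (he : Function.Injective e)
    (himg : univ.image e = μ.cells) (m : ℕ →₀ ℕ) :
    schurFn μ m = (((U n m).filter (SS e)).card : ℤ) := by
  have hcard := natCard_eq (n := n) m (SS e)
  rw [← hcard]
  unfold schurFn
  congr 1
  have hmem : ∀ c : ℕ × ℕ, c ∈ μ ↔ ∃ j, e j = c := by
    intro c
    rw [← YoungDiagram.mem_cells, ← himg]
    simp
  -- the inverse of `e`
  have hsum : ∀ T : ℕ → ℕ → ℕ, ∑ c ∈ μ.cells, Finsupp.single (T c.1 c.2) 1 =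
      ∑ j, (Finsupp.single (T (e j).1 (e j).2) 1 : ℕ →₀ ℕ) := by
    intro T
    rw [← himg, Finset.sum_image (fun a _ b _ h => he h)]
  apply Nat.card_congr
  refine ⟨fun T => ⟨fun j => T.1 (e j).1 (e j).2, ?_, ?_⟩, fun t => ⟨⟨fun r q =>
    if h : ∃ j, e j = (r, q) then t.1 h.choose else 0, ?_, ?_, ?_⟩, ?_⟩, ?_, ?_⟩
  · constructor
    · intro j k h1 h2
      show T.1 (e j).1 (e j).2 ≤ T.1 (e k).1 (e k).2
      rw [h1]
      exact T.1.row_weak h2 ((hmem _).2 ⟨k, rfl⟩)
    · intro j k h1 h2
      show T.1 (e j).1 (e j).2 < T.1 (e k).1 (e k).2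
      rw [h1]
      exact T.1.col_strict h2 ((hmem _).2 ⟨k, rfl⟩)
  · rw [← hsum]; exact T.2
  · intro i j1 j2 h1 h2
    have h3 : (i, j1) ∈ μ := μ.up_left_mem le_rfl h1.le h2
    have h3' := (hmem _).1 h3
    have h2' := (hmem _).1 h2
    rw [dif_pos h3', dif_pos h2']
    have a1 := h3'.choose_spec
    have a2 := h2'.choose_spec
    exact t.2.1.1 _ _ (by rw [a1, a2]) (by rw [a1, a2]; exact h1)
  · intro i1 i2 j h1 h2
    have h3 : (i1, j) ∈ μ := μ.up_left_mem h1.le le_rfl h2
    have h3' := (hmem _).1 h3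
    have h2' := (hmem _).1 h2
    rw [dif_pos h3', dif_pos h2']
    have a1 := h3'.choose_spec
    have a2 := h2'.choose_spec
    exact t.2.1.2 _ _ (by rw [a1, a2]) (by rw [a1, a2]; exact h1)
  · intro i j h1
    rw [hmem] at h1
    rw [dif_neg h1]
  · refine Eq.trans (hsum (fun r q => if h : ∃ j, e j = (r, q) then t.1 h.choose else 0)) ?_
    refine Eq.trans ?_ t.2.2
    apply Finset.sum_congr rfl
    intro j _
    have h1 : ∃ j', e j' = ((e j).1, (e j).2) := ⟨j, rfl⟩
    rw [dif_pos h1]
    congr 1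
    exact congrArg t.1 (he h1.choose_spec)
  · intro T
    apply Subtype.ext
    apply SemistandardYoungTableau.ext
    intro r q
    show (if h : ∃ j, e j = (r, q) then T.1 (e h.choose).1 (e h.choose).2 else 0) = T.1 r q
    split_ifs with h
    · rw [h.choose_spec]
    · rw [← hmem] at h
      rw [T.1.zeros h]
  · intro t
    apply Subtype.ext
    funext j
    show (if h : ∃ j', e j' = ((e j).1, (e j).2) then t.1 h.choose else 0) = t.1 j
    have h1 : ∃ j', e j' = ((e j).1, (e j).2) := ⟨j, rfl⟩
    rw [dif_pos h1]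
    exact congrArg t.1 (he h1.choose_spec)

/-- `σ` lists the cells (in the enumeration `e`) in the order of a standard Young tableau. -/
def Std {n : ℕ} (e : Fin n → ℕ × ℕ) (σ : Equiv.Perm (Fin n)) : Prop :=
  ∀ j k, (e (σ j)).1 ≤ (e (σ k)).1 → (e (σ j)).2 ≤ (e (σ k)).2 → j ≤ k

/-- The descent set of the standard Young tableau given by `σ`: `p` is a descent if the entry
`p+1` lies in a lower row than the entry `p`. -/
def desTab {n : ℕ} (e : Fin n → ℕ × ℕ) (σ : Equiv.Perm (Fin n)) : Finset ℕ :=
  (Finset.range n).filter (fun p => ∃ j k : Fin n, (k : ℕ) = p ∧ (k : ℕ) = j + 1 ∧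
    (e (σ j)).1 < (e (σ k)).1)

theorem mem_desTab {n : ℕ} {e : Fin n → ℕ × ℕ} {σ : Equiv.Perm (Fin n)} {j k : Fin n}
    (h : (k : ℕ) = j + 1) : (k : ℕ) ∈ desTab e σ ↔ (e (σ j)).1 < (e (σ k)).1 := by
  rw [desTab, mem_filter, mem_range]
  constructor
  · rintro ⟨-, j', k', h1, h2, h3⟩
    have : k' = k := Fin.ext h1
    subst this
    have : j' = j := Fin.ext (by omega)
    subst this
    exact h3
  · intro h3
    exact ⟨k.2, j, k, rfl, h, h3⟩

/-- the key by which the cells are sorted -/
def key {n : ℕ} (e : Fin n → ℕ × ℕ) (t : Fin n → ℕ) (j : Fin n) : ℕ ×ₗ ℕ := toLex (t j, (e j).2)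

theorem key_le {n : ℕ} {e : Fin n → ℕ × ℕ} {t : Fin n → ℕ} {j k : Fin n} :
    key e t j ≤ key e t k ↔ t j < t k ∨ t j = t k ∧ (e j).2 ≤ (e k).2 := by
  unfold key
  rw [Prod.Lex.toLex_le_toLex]

theorem key_lt {n : ℕ} {e : Fin n → ℕ × ℕ} {t : Fin n → ℕ} {j k : Fin n} :
    key e t j < key e t k ↔ t j < t k ∨ t j = t k ∧ (e j).2 < (e k).2 := by
  unfold key
  rw [Prod.Lex.toLex_lt_toLex]

theorem key_injective {n : ℕ} {e : Fin n → ℕ × ℕ} (he : Function.Injective e) {t : Fin n → ℕ}
    (ht : SS e t) : Function.Injective (key e t) := by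
  intro j k h
  have h1 : t j = t k := by
    have := congrArg (fun x => (ofLex x).1) h
    exact this
  have h2 : (e j).2 = (e k).2 := by
    have := congrArg (fun x => (ofLex x).2) h
    exact this
  rcases lt_trichotomy (e j).1 (e k).1 with h3 | h3 | h3
  · exact absurd h1 (ht.2 j k h2 h3).ne
  · exact he (Prod.ext h3 h2)
  · exact absurd h1.symm (ht.2 k j h2.symm h3).ne

/-- a monotone criterion by consecutive elements -/
theorem monotone_of_succ {α : Type*} [Preorder α] {n : ℕ} {f : Fin n → α}
    (h : ∀ j k : Fin n, (k : ℕ) = j + 1 → f j ≤ f k) : Monotone f := by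
  have key : ∀ d : ℕ, ∀ j k : Fin n, (k : ℕ) = j + d → f j ≤ f k := by
    intro d
    induction d with
    | zero => intro j k h1; rw [Fin.ext (show (j : ℕ) = k by omega)]
    | succ d ih =>
      intro j k h1
      have h2 : (j : ℕ) + d < n := by have := k.2; omega
      exact (ih j ⟨j + d, h2⟩ rfl).trans (h ⟨j + d, h2⟩ k (by simp only; omega))
  intro j k h1
  exact key (k - j) j k (by have : (j : ℕ) ≤ k := h1; omega)

/-- in a semistandard filling, entries increase weakly along the order of cells, and strictly if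
the row increases strictly -/
theorem SS.le {μ : YoungDiagram} {n : ℕ} {e : Fin n → ℕ × ℕ}
    (himg : univ.image e = μ.cells) {t : Fin n → ℕ} (ht : SS e t) (he : Function.Injective e)
    {j k : Fin n} (h1 : (e j).1 ≤ (e k).1) (h2 : (e j).2 ≤ (e k).2) :
    t j ≤ t k ∧ ((e j).1 < (e k).1 → t j < t k) := by
  have hmem : ∀ c : ℕ × ℕ, c ∈ μ ↔ ∃ j, e j = c := by
    intro c
    rw [← YoungDiagram.mem_cells, ← himg]
    simp
  have h3 : ((e j).1, (e k).2) ∈ μ := μ.up_left_mem h1 le_rfl ((hmem _).2 ⟨k, rfl⟩)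
  obtain ⟨l, hl⟩ := (hmem _).1 h3
  have a1 : t j ≤ t l := by
    rcases Nat.eq_or_lt_of_le h2 with h4 | h4
    · have : l = j := he (by rw [hl, ← h4])
      rw [this]
    · exact ht.1 j l (by rw [hl]) (by rw [hl]; exact h4)
  rcases Nat.eq_or_lt_of_le h1 with h4 | h4
  · have : l = k := he (by rw [hl, h4])
    subst this
    exact ⟨a1, fun h5 => absurd h4 h5.ne⟩
  · have a2 : t l < t k := ht.2 l k (by rw [hl]) (by rw [hl]; exact h4)
    exact ⟨(a1.trans a2.le), fun _ => a1.trans_lt a2⟩

theorem sort_props {μ : YoungDiagram} {n : ℕ} {e : Fin n → ℕ × ℕ}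
    (himg : univ.image e = μ.cells) (he : Function.Injective e) {t : Fin n → ℕ} (ht : SS e t) :
    Std e (Tuple.sort (key e t)) ∧ Monotone (t ∘ Tuple.sort (key e t)) ∧
      StrictAt (desTab e (Tuple.sort (key e t))) (t ∘ Tuple.sort (key e t)) := by
  set σ := Tuple.sort (key e t) with hσ
  have hmono : Monotone (key e t ∘ σ) := Tuple.monotone_sort (key e t)
  have hinj := key_injective he ht
  have hstrict : StrictMono (key e t ∘ σ) :=
    hmono.strictMono_of_injective (hinj.comp σ.injective)
  refine ⟨?_, ?_, ?_⟩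
  · intro j k h1 h2
    by_contra hcon
    push Not at hcon
    have h3 := hstrict hcon
    have h4 : key e t (σ j) ≤ key e t (σ k) := by
      rw [key_le]
      have := ht.le himg he h1 h2
      rcases Nat.eq_or_lt_of_le this.1 with h5 | h5
      · exact Or.inr ⟨h5, h2⟩
      · exact Or.inl h5
    exact absurd h4 (not_le.2 h3)
  · intro j k h
    have := hmono h
    rw [Function.comp_apply, Function.comp_apply, key_le] at this
    rcases this with h1 | h1
    · exact h1.le
    · exact h1.1.le
  · intro j k h h1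
    rw [mem_desTab h] at h1
    have h2 : j < k := by rw [Fin.lt_def]; omega
    have h3 := hstrict h2
    rw [Function.comp_apply, Function.comp_apply, key_lt] at h3
    rcases h3 with h3 | h3
    · exact h3
    · exact (ht.le himg he h1.le h3.2.le).2 h1

theorem of_sorted {n : ℕ} {e : Fin n → ℕ × ℕ} (he : Function.Injective e) {t : Fin n → ℕ}
    {σ : Equiv.Perm (Fin n)} (h1 : Std e σ) (h2 : Monotone (t ∘ σ))
    (h3 : StrictAt (desTab e σ) (t ∘ σ)) : SS e t ∧ Tuple.sort (key e t) = σ := by
  have hSS : SS e t := by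
    constructor
    · intro j k h4 h5
      have := h1 (σ.symm j) (σ.symm k) (by simp [h4]) (by simp [h5.le])
      have := h2 this
      simpa using this
    · intro j k h4 h5
      have h6 := h1 (σ.symm j) (σ.symm k) (by simp [h5.le]) (by simp [h4])
      have h7 := h2 h6
      rw [Function.comp_apply, Function.comp_apply, Equiv.apply_symm_apply,
        Equiv.apply_symm_apply] at h7
      rcases Nat.eq_or_lt_of_le h7 with h8 | h8
      · exfalso
        -- rows weakly decrease from `σ⁻¹ j` to `σ⁻¹ k`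
        have key : ∀ d : ℕ, ∀ b : Fin n, (b : ℕ) = (σ.symm j : ℕ) + d → b ≤ σ.symm k →
            (e (σ b)).1 ≤ (e j).1 := by
          intro d
          induction d with
          | zero =>
            intro b hb _
            have : b = σ.symm j := Fin.ext (by omega)
            rw [this, Equiv.apply_symm_apply]
          | succ d ih =>
            intro b hb hbk
            have hb' : (σ.symm j : ℕ) + d < n := by have := b.2; omega
            have hle : (⟨(σ.symm j : ℕ) + d, hb'⟩ : Fin n) ≤ b := by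
              rw [Fin.le_def]; simp only; omega
            have h9 := ih ⟨(σ.symm j : ℕ) + d, hb'⟩ rfl (hle.trans hbk)
            have h10 : (b : ℕ) = (⟨(σ.symm j : ℕ) + d, hb'⟩ : Fin n) + 1 := by
              simp only; omega
            by_contra hcon
            push Not at hcon
            have h11 : (b : ℕ) ∈ desTab e σ := (mem_desTab h10).2 (h9.trans_lt hcon)
            have h12 := h3 _ b h10 h11
            have h13 : (t ∘ σ) (σ.symm j) ≤ (t ∘ σ) ⟨(σ.symm j : ℕ) + d, hb'⟩ := by
              apply h2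
              rw [Fin.le_def]; simp
            have h14 : (t ∘ σ) b ≤ (t ∘ σ) (σ.symm k) := h2 hbk
            simp only [Function.comp_apply, Equiv.apply_symm_apply] at h12 h13 h14
            omega
        have h15 := key (σ.symm k - σ.symm j) (σ.symm k)
          (by have : (σ.symm j : ℕ) ≤ σ.symm k := h6; omega) le_rfl
        rw [Equiv.apply_symm_apply] at h15
        omega
      · exact h8
  refine ⟨hSS, ?_⟩
  have hinj := key_injective he hSS
  have hmono : Monotone (key e t ∘ σ) := by
    apply monotone_of_succ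
    intro j k h
    rw [Function.comp_apply, Function.comp_apply, key_le]
    have hjk : j < k := by rw [Fin.lt_def]; omega
    have h4 : t (σ j) ≤ t (σ k) := h2 hjk.le
    rcases Nat.eq_or_lt_of_le h4 with h5 | h5
    · right
      refine ⟨h5, ?_⟩
      by_contra hcon
      push Not at hcon
      have h6 : ¬ (e (σ j)).1 < (e (σ k)).1 := by
        intro h7
        have := h3 j k h ((mem_desTab h).2 h7)
        rw [Function.comp_apply, Function.comp_apply] at this
        omega
      have := h1 k j (not_lt.1 h6) hcon.le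
      exact absurd this (not_le.2 hjk)
    · exact Or.inl h5
  have h4 := Tuple.unique_monotone (Tuple.monotone_sort (key e t)) hmono
  have h5 : (Tuple.sort (key e t) : Fin n → Fin n) = σ := by
    funext j
    exact hinj (congrFun h4 j)
  exact Equiv.ext (congrFun h5)

open Classical in
/-- **Gessel's expansion** of a Schur function into fundamental quasisymmetric functions. -/
theorem schur_eq (μ : YoungDiagram) {n : ℕ} (e : Fin n → ℕ × ℕ) (he : Function.Injective e)
    (himg : univ.image e = μ.cells) :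
    schurFn μ = ∑ σ ∈ univ.filter (Std e), fund n (desTab e σ) := by
  ext m
  rw [map_sum]
  show schurFn μ m = ∑ σ ∈ univ.filter (Std e), fund n (desTab e σ) m
  rw [schur_apply μ e he himg]
  have h1 : ((U n m).filter (SS e)).card = ∑ σ ∈ univ.filter (Std e),
      (((U n m).filter (SS e)).filter (fun t => Tuple.sort (key e t) = σ)).card := by
    apply Finset.card_eq_sum_card_fiberwise
    intro t ht
    rw [mem_coe, mem_filter] at ht
    rw [mem_coe, mem_filter]
    exact ⟨mem_univ _, (sort_props himg he ht.2).1⟩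
  rw [h1]
  push_cast
  apply Finset.sum_congr rfl
  intro σ hσ
  rw [mem_filter] at hσ
  rw [fund_apply]
  congr 1
  apply Finset.card_bij (fun t _ => t ∘ σ)
  · intro t ht
    rw [mem_filter, mem_filter, mem_U] at ht
    rw [mem_filter, mem_U]
    obtain ⟨⟨h2, h3⟩, h4⟩ := ht
    have h5 := sort_props himg he h3
    rw [h4] at h5
    refine ⟨?_, h5.2⟩
    rw [← h2]
    exact Equiv.sum_comp σ (fun j => (Finsupp.single (t j) 1 : ℕ →₀ ℕ))
  · intro t _ t' _ h
    funext j
    have := congrFun h (σ.symm j)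
    simpa using this
  · intro i hi
    rw [mem_filter, mem_U] at hi
    refine ⟨i ∘ σ.symm, ?_, ?_⟩
    · rw [mem_filter, mem_filter, mem_U]
      have h6 : (i ∘ σ.symm) ∘ σ = i := by funext j; simp
      have h7 := of_sorted (t := i ∘ σ.symm) he hσ.2 (by rw [h6]; exact hi.2.1)
        (by rw [h6]; exact hi.2.2)
      refine ⟨⟨?_, h7.1⟩, h7.2⟩
      rw [← hi.1]
      exact Equiv.sum_comp σ.symm (fun j => (Finsupp.single (i j) 1 : ℕ →₀ ℕ))
    · funext j; simp

end Pool.Agent.Lib.MP_2f3d14_co
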