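import Pool.Agent.Lib.MP_2f3d14_co.Coeff

/-!
# Grid classes of signed permutation matrices
-/

namespace Pool.Agent.Lib.MP_2f3d14_co

open Finset

/-- The signed permutation matrix with the sign `s j` in column `j` and row `v j`. -/
def spm {r : ℕ} (v : Equiv.Perm (Fin r)) (s : Fin r → SignType) : Matrix (Fin r) (Fin r) SignType :=
  fun i j => if i = v j then s j else 0

/-- The condition on two entries `p` and `q` of a permutation, at positions `k < l` in the columns
`x ≤ y`. -/
def Rel {r : ℕ} (v : Equiv.Perm (Fin r)) (s : Fin r → SignType) (x y : Fin r) (p q : ℕ) : Prop :=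
  (x = y ∧ s x = 1 ∧ p < q) ∨ (x = y ∧ s x = -1 ∧ q < p) ∨ (v x < v y ∧ p < q) ∨
    (v y < v x ∧ q < p)

theorem mem_gridClass {r c n : ℕ} {M : Matrix (Fin r) (Fin c) SignType}
    {π : Equiv.Perm (Fin n)} : π ∈ gridClass M n ↔ InGrid M π := by
  classical
  simp [gridClass]

/-- locating a position between grid lines -/
theorem exists_col {c n : ℕ} {a : Fin (c + 1) → ℕ} (h0 : a 0 = 0)
    (h1 : a (Fin.last c) = n) {k : ℕ} (hk : k < n) :
    ∃ j : Fin c, a j.castSucc ≤ k ∧ k < a j.succ := by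
  by_contra hcon
  push Not at hcon
  have : ∀ j : Fin (c + 1), a j ≤ k := by
    intro j
    induction j using Fin.induction with
    | zero => omega
    | succ j ih => exact hcon j ih
  have := this (Fin.last c)
  omega

theorem inGrid_forward {r n : ℕ} {v : Equiv.Perm (Fin r)} {s : Fin r → SignType}
    (hs : ∀ j, s j ≠ 0) {π : Equiv.Perm (Fin n)} (h : InGrid (spm v s) π) :
    ∃ f : Fin n → Fin r, Monotone f ∧ ∀ k l, k < l → Rel v s (f k) (f l) (π k) (π l) := by
  obtain ⟨a, b, ha, ha0, hal, hb, hb0, hbl, hcell⟩ := h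
  have hcol : ∀ k : Fin n, ∃ j : Fin r, a j.castSucc ≤ k ∧ (k : ℕ) < a j.succ :=
    fun k => exists_col ha0 hal k.2
  choose f hf1 hf2 using hcol
  -- the row of the value at position `k`
  have hrow : ∀ k : Fin n, b (v (f k)).castSucc ≤ π k ∧ (π k : ℕ) < b (v (f k)).succ := by
    intro k
    obtain ⟨i, hi1, hi2⟩ := exists_col hb0 hbl (π k).2
    by_cases h1 : i = v (f k)
    · rw [← h1]; exact ⟨hi1, hi2⟩
    · exfalso
      have h2 := (hcell i (f k)).1 (if_neg h1)
      have h4 : k ∈ ({k' : Fin n | a (f k).castSucc ≤ k' ∧ (k' : ℕ) < a (f k).succ ∧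
        b i.castSucc ≤ π k' ∧ (π k' : ℕ) < b i.succ} : Set (Fin n)) := ⟨hf1 k, hf2 k, hi1, hi2⟩
      rw [h2] at h4
      exact h4
  have hle : ∀ i j : Fin r, i < j → i.succ ≤ j.castSucc := by
    intro i j hij
    rw [Fin.le_def]
    simp only [Fin.val_succ, Fin.val_castSucc]
    exact hij
  refine ⟨f, ?_, ?_⟩
  · intro k l hkl
    by_contra hcon
    push Not at hcon
    have h1 := ha (hle _ _ hcon)
    have h2 := hf1 k
    have h3 := hf2 l
    have h4 : (k : ℕ) ≤ l := hkl
    omega
  · intro k l hkl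
    by_cases hfk : f k = f l
    · have hk : k ∈ ({k' : Fin n | a (f k).castSucc ≤ k' ∧ (k' : ℕ) < a (f k).succ ∧
        b (v (f k)).castSucc ≤ π k' ∧ (π k' : ℕ) < b (v (f k)).succ} : Set (Fin n)) :=
        ⟨hf1 k, hf2 k, (hrow k).1, (hrow k).2⟩
      have hl : l ∈ ({k' : Fin n | a (f k).castSucc ≤ k' ∧ (k' : ℕ) < a (f k).succ ∧
        b (v (f k)).castSucc ≤ π k' ∧ (π k' : ℕ) < b (v (f k)).succ} : Set (Fin n)) := by
        rw [hfk]
        exact ⟨hf1 l, hf2 l, (hrow l).1, (hrow l).2⟩
      have hM : spm v s (v (f k)) (f k) = s (f k) := if_pos rfl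
      rcases SignType.trichotomy (s (f k)) with h1 | h1 | h1
      · have h2 := (hcell (v (f k)) (f k)).2.2 (by rw [hM, h1])
        exact Or.inr (Or.inl ⟨hfk, h1, h2 hk hl hkl⟩)
      · exact absurd h1 (hs _)
      · have h2 := (hcell (v (f k)) (f k)).2.1 (by rw [hM, h1])
        exact Or.inl ⟨hfk, h1, h2 hk hl hkl⟩
    · have h1 : v (f k) ≠ v (f l) := fun h => hfk (v.injective h)
      rcases lt_or_gt_of_ne h1 with h2 | h2
      · refine Or.inr (Or.inr (Or.inl ⟨h2, ?_⟩))
        have h3 := hb (hle _ _ h2)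
        have h4 := (hrow k).2
        have h5 := (hrow l).1
        omega
      · refine Or.inr (Or.inr (Or.inr ⟨h2, ?_⟩))
        have h3 := hb (hle _ _ h2)
        have h4 := (hrow k).1
        have h5 := (hrow l).2
        omega

theorem inGrid_backward {r n : ℕ} {v : Equiv.Perm (Fin r)} {s : Fin r → SignType}
    (hs : ∀ j, s j ≠ 0) {π : Equiv.Perm (Fin n)} (f : Fin n → Fin r) (hf : Monotone f)
    (h : ∀ k l, k < l → Rel v s (f k) (f l) (π k) (π l)) : InGrid (spm v s) π := by
  classical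
  have ha : ∀ (k : Fin n) (j : ℕ), (k : ℕ) < (univ.filter (fun l : Fin n => (f l : ℕ) < j)).card ↔
      (f k : ℕ) < j := by
    intro k j
    exact lt_card_iff (Equiv.refl (Fin n)) (fun l => (f l : ℕ) < j) (by
      intro l l' h1 h2
      by_contra h3
      have h4 : f l' ≤ f l := hf (not_lt.1 h3)
      have h5 : (f l' : ℕ) ≤ f l := h4
      omega) k
  have hb : ∀ (k : Fin n) (i : ℕ),
      (π k : ℕ) < (univ.filter (fun l : Fin n => (v (f l) : ℕ) < i)).card ↔
      (v (f k) : ℕ) < i := by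
    intro k i
    refine lt_card_iff π (fun l => (v (f l) : ℕ) < i) ?_ k
    intro l l' h1 h2
    have hvv : v (f l) < v (f l') := by rw [Fin.lt_def]; omega
    have hne : l ≠ l' := by rintro rfl; exact h2 h1
    rcases lt_or_gt_of_ne hne with h3 | h3
    · rcases h l l' h3 with h4 | h4 | h4 | h4
      · rw [h4.1] at hvv; exact absurd hvv (lt_irrefl _)
      · rw [h4.1] at hvv; exact absurd hvv (lt_irrefl _)
      · exact h4.2
      · exact absurd h4.1 (not_lt.2 hvv.le)
    · rcases h l' l h3 with h4 | h4 | h4 | h4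
      · rw [h4.1] at hvv; exact absurd hvv (lt_irrefl _)
      · rw [h4.1] at hvv; exact absurd hvv (lt_irrefl _)
      · exact absurd h4.1 (not_lt.2 hvv.le)
      · exact h4.2
  refine ⟨fun j => (univ.filter (fun l : Fin n => (f l : ℕ) < j)).card,
    fun i => (univ.filter (fun l : Fin n => (v (f l) : ℕ) < i)).card, ?_, ?_, ?_, ?_, ?_, ?_, ?_⟩
  · intro j j' hj
    apply Finset.card_le_card
    intro l hl
    rw [mem_filter] at hl ⊢
    exact ⟨hl.1, hl.2.trans_le hj⟩
  · simp
  · simp only [Fin.val_last]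
    rw [Finset.filter_true_of_mem (fun l _ => (f l).2)]
    simp
  · intro j j' hj
    apply Finset.card_le_card
    intro l hl
    rw [mem_filter] at hl ⊢
    exact ⟨hl.1, hl.2.trans_le hj⟩
  · simp
  · simp only [Fin.val_last]
    rw [Finset.filter_true_of_mem (fun l _ => (v (f l)).2)]
    simp
  · intro i j
    have hmem : ∀ k : Fin n, (univ.filter (fun l : Fin n => (f l : ℕ) < j.castSucc)).card ≤ (k : ℕ) →
        (k : ℕ) < (univ.filter (fun l : Fin n => (f l : ℕ) < j.succ)).card →
        (univ.filter (fun l : Fin n => (v (f l) : ℕ) < i.castSucc)).card ≤ (π k : ℕ) →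
        (π k : ℕ) < (univ.filter (fun l : Fin n => (v (f l) : ℕ) < i.succ)).card →
        f k = j ∧ v (f k) = i := by
      intro k h1 h2 h3 h4
      have h1' := (ha k j.castSucc).not.1 (by omega)
      have h2' := (ha k j.succ).1 h2
      have h3' := (hb k i.castSucc).not.1 (by omega)
      have h4' := (hb k i.succ).1 h4
      simp only [Fin.val_succ, Fin.val_castSucc] at h1' h2' h3' h4'
      exact ⟨Fin.ext (by omega), Fin.ext (by omega)⟩
    refine ⟨?_, ?_, ?_⟩
    · intro hM
      rw [Set.eq_empty_iff_forall_notMem]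
      rintro k ⟨h1, h2, h3, h4⟩
      obtain ⟨h5, h6⟩ := hmem k h1 h2 h3 h4
      have : spm v s i j = s j := if_pos (by rw [← h5]; exact h6.symm)
      rw [this] at hM
      exact hs j hM
    · intro hM k hk l hl hkl
      obtain ⟨h1, h2, h3, h4⟩ := hk
      obtain ⟨h5, h6⟩ := hmem k h1 h2 h3 h4
      obtain ⟨h1, h2, h3, h4⟩ := hl
      obtain ⟨h7, h8⟩ := hmem l h1 h2 h3 h4
      have hM' : s j = 1 := by
        have : spm v s i j = s j := if_pos (by rw [← h5]; exact h6.symm)
        rw [← this]; exact hM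
      rcases h k l hkl with h9 | h9 | h9 | h9
      · exact h9.2.2
      · rw [h5, hM'] at h9
        exact absurd h9.2.1 (by decide)
      · rw [h6, h8] at h9; exact absurd h9.1 (lt_irrefl _)
      · rw [h6, h8] at h9; exact absurd h9.1 (lt_irrefl _)
    · intro hM k hk l hl hkl
      obtain ⟨h1, h2, h3, h4⟩ := hk
      obtain ⟨h5, h6⟩ := hmem k h1 h2 h3 h4
      obtain ⟨h1, h2, h3, h4⟩ := hl
      obtain ⟨h7, h8⟩ := hmem l h1 h2 h3 h4
      have hM' : s j = -1 := by
        have : spm v s i j = s j := if_pos (by rw [← h5]; exact h6.symm)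
        rw [← this]; exact hM
      rcases h k l hkl with h9 | h9 | h9 | h9
      · rw [h5, hM'] at h9
        exact absurd h9.2.1 (by decide)
      · exact h9.2.2
      · rw [h6, h8] at h9; exact absurd h9.1 (lt_irrefl _)
      · rw [h6, h8] at h9; exact absurd h9.1 (lt_irrefl _)

end Pool.Agent.Lib.MP_2f3d14_co
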